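import Mathlib

/-!
# Surface area of a union of translates: the octahedron is a counterexample
-/

set_option autoImplicit false

namespace Pool.Agent.Results.MP_a80f1a_gt.Octahedron

open MeasureTheory Set Filter Topology
open scoped ENNReal Pointwise

/-- `A` has `K`-surface area `s`: `(λ(A ⊕ δK) - λ(A)) / δ` tends to `s` as `δ → 0+`. -/
def HasKArea {d : ℕ} (K A : Set (Fin d → ℝ)) (s : ℝ) : Prop :=
  Tendsto (fun δ : ℝ => ((volume (A + δ • K)).toReal - (volume A).toReal) / δ) (𝓝[>] 0) (𝓝 s)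

/-- `K` is a bounded convex set, centrally symmetric about `c`. -/
def SymConv {d : ℕ} (K : Set (Fin d → ℝ)) (c : Fin d → ℝ) : Prop :=
  Bornology.IsBounded K ∧ Convex ℝ K ∧ c ∈ K ∧ ∀ x ∈ K, (2 : ℝ) • c - x ∈ K

/-- The set `K(x₀; r)`: the translate of `rK` whose centre is `x₀`. -/
def at' {d : ℕ} (K : Set (Fin d → ℝ)) (c x₀ : Fin d → ℝ) (r : ℝ) : Set (Fin d → ℝ) :=
  (fun k => x₀ + r • (k - c)) '' K

/-- The inequality of Q1 in every dimension. -/
def Q1 : Prop :=
  ∀ d : ℕ, 1 ≤ d → ∀ (K : Set (Fin d → ℝ)) (c : Fin d → ℝ), SymConv K c →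
    ∀ r : ℝ, 0 < r → ∀ (x₀ : Fin d → ℝ) (N : ℕ), 1 ≤ N → ∀ x : Fin N → (Fin d → ℝ),
      (∀ i, x i ∈ at' K c x₀ r) → ∀ s t : ℝ, HasKArea K (insert x₀ (range x) + r • K) s →
        HasKArea K (at' K c x₀ (2 * r)) t → s ≤ t

/-- The `ℓ₁`-norm on `ℝ³`. -/
def N1 (x : Fin 3 → ℝ) : ℝ := |x 0| + |x 1| + |x 2|

/-- The regular octahedron. -/
def oct : Set (Fin 3 → ℝ) := {x | N1 x ≤ 1}

/-- The six vertices of the octahedron. -/
def vert : Fin 6 → (Fin 3 → ℝ) :=
  ![![1, 0, 0], ![-1, 0, 0], ![0, 1, 0], ![0, -1, 0], ![0, 0, 1], ![0, 0, -1]]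

/-- octahedron with centre `c` and size `s` -/
def O (c : Fin 3 → ℝ) (s : ℝ) : Set (Fin 3 → ℝ) := {x | N1 (x - c) ≤ s}

theorem N1_nonneg (x : Fin 3 → ℝ) : 0 ≤ N1 x := by unfold N1; positivity

theorem N1_add (x y : Fin 3 → ℝ) : N1 (x + y) ≤ N1 x + N1 y := by
  unfold N1
  simp only [Pi.add_apply]
  linarith [abs_add_le (x 0) (y 0), abs_add_le (x 1) (y 1), abs_add_le (x 2) (y 2)]

theorem N1_smul (t : ℝ) (x : Fin 3 → ℝ) : N1 (t • x) = |t| * N1 x := by
  unfold N1
  simp only [Pi.smul_apply, smul_eq_mul, abs_mul]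
  ring

theorem N1_cont : Continuous N1 := by unfold N1; fun_prop

theorem O_closed (c : Fin 3 → ℝ) (s : ℝ) : IsClosed (O c s) := by
  have : Continuous fun x : Fin 3 → ℝ => N1 (x - c) := N1_cont.comp (by fun_prop)
  exact isClosed_le this continuous_const

theorem vol_O (c : Fin 3 → ℝ) {s : ℝ} (hs : 0 ≤ s) : volume (O c s) = ENNReal.ofReal (4 / 3 * s ^ 3) := by
  have h1 : O c s = (fun x => x + c) '' {x : Fin 3 → ℝ | (∑ i, |x i| ^ (1:ℝ)) ^ (1 / (1:ℝ)) ≤ s} := by
    ext x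
    simp only [O, N1, mem_ofPred_eq, image_add_right, mem_preimage, Real.rpow_one, div_one,
      Fin.sum_univ_three, Pi.sub_apply, Pi.add_apply, Pi.neg_apply, sub_eq_add_neg]
  rw [h1, image_add_right, measure_preimage_add_right,
    MeasureTheory.volume_sum_rpow_le (ι := Fin 3) (p := (1 : ℝ)) le_rfl s]
  simp only [Fintype.card_fin]
  rw [← ENNReal.ofReal_pow hs, ← ENNReal.ofReal_mul (by positivity)]
  congr 1
  have g1 : Real.Gamma (1 / 1 + 1) = 1 := by
    norm_num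
  have g2 : Real.Gamma (((3:ℕ):ℝ) / 1 + 1) = 6 := by
    rw [div_one, Real.Gamma_nat_eq_factorial]
    norm_num [Nat.factorial]
  rw [g1, g2]
  ring

theorem O_add (c : Fin 3 → ℝ) {s δ : ℝ} (hs : 0 < s) (hδ : 0 < δ) : O c s + δ • oct = O c (s + δ) := by
  ext x
  constructor
  · rintro ⟨a, ha, b, hb, rfl⟩
    obtain ⟨k, hk, rfl⟩ := hb
    show N1 (a + δ • k - c) ≤ s + δ
    have h1 : a + δ • k - c = (a - c) + δ • k := by abel
    rw [h1]
    have h2 := N1_add (a - c) (δ • k)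
    rw [N1_smul, abs_of_pos hδ] at h2
    have h3 : N1 (a - c) ≤ s := ha
    have h4 : N1 k ≤ 1 := hk
    nlinarith
  · intro hx
    have hx' : N1 (x - c) ≤ s + δ := hx
    refine ⟨c + (s / (s + δ)) • (x - c), ?_, δ • ((1 / (s + δ)) • (x - c)), ⟨_, ?_, rfl⟩, ?_⟩
    · show N1 (c + (s / (s + δ)) • (x - c) - c) ≤ s
      rw [add_sub_cancel_left, N1_smul, abs_of_pos (by positivity), div_mul_eq_mul_div,
        div_le_iff₀ (by positivity)]
      nlinarith
    · show N1 ((1 / (s + δ)) • (x - c)) ≤ 1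
      rw [N1_smul, abs_of_pos (by positivity), div_mul_eq_mul_div, div_le_iff₀ (by positivity)]
      linarith
    · simp only
      rw [smul_smul, add_assoc, ← add_smul]
      have : s / (s + δ) + δ * (1 / (s + δ)) = 1 := by field_simp
      rw [this, one_smul]
      abel

theorem O_inter (i : Fin 6) {s : ℝ} : O (vert i) s ∩ O 0 s = O ((1 / 2 : ℝ) • vert i) (s - 1 / 2) := by
  have key : ∀ u w : ℝ, 0 ≤ w → ((|u - 1| + w ≤ s ∧ |u| + w ≤ s) ↔ |u - 1 / 2| + w ≤ s - 1 / 2) := by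
    intro u w hw
    constructor
    · rintro ⟨h1, h2⟩
      rcases abs_cases (u - 1) with h | h <;> rcases abs_cases u with h' | h' <;>
        rcases abs_cases (u - 1 / 2) with h'' | h'' <;> linarith
    · intro h1
      constructor <;>
      rcases abs_cases (u - 1) with h | h <;> rcases abs_cases u with h' | h' <;>
        rcases abs_cases (u - 1 / 2) with h'' | h'' <;> linarith
  have key' : ∀ u w : ℝ, 0 ≤ w → ((|u + 1| + w ≤ s ∧ |u| + w ≤ s) ↔ |u + 1 / 2| + w ≤ s - 1 / 2) := by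
    intro u w hw
    have := key (-u) w hw
    rw [abs_neg, show -u - 1 = -(u + 1) by ring, abs_neg, show -u - 1 / 2 = -(u + 1 / 2) by ring,
      abs_neg] at this
    exact this
  ext x
  fin_cases i
  · show (|x 0 - 1| + |x 1 - 0| + |x 2 - 0| ≤ s ∧ |x 0 - 0| + |x 1 - 0| + |x 2 - 0| ≤ s) ↔
      |x 0 - (1 / 2) * 1| + |x 1 - (1 / 2) * 0| + |x 2 - (1 / 2) * 0| ≤ s - 1 / 2
    have h := key (x 0) (|x 1| + |x 2|) (by positivity)
    simp only [sub_zero, mul_zero, mul_one, add_assoc]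
    exact h
  · show (|x 0 - -1| + |x 1 - 0| + |x 2 - 0| ≤ s ∧ |x 0 - 0| + |x 1 - 0| + |x 2 - 0| ≤ s) ↔
      |x 0 - (1 / 2) * -1| + |x 1 - (1 / 2) * 0| + |x 2 - (1 / 2) * 0| ≤ s - 1 / 2
    have h := key' (x 0) (|x 1| + |x 2|) (by positivity)
    simp only [sub_zero, mul_zero, mul_neg, mul_one, sub_neg_eq_add, add_assoc]
    exact h
  · show (|x 0 - 0| + |x 1 - 1| + |x 2 - 0| ≤ s ∧ |x 0 - 0| + |x 1 - 0| + |x 2 - 0| ≤ s) ↔
      |x 0 - (1 / 2) * 0| + |x 1 - (1 / 2) * 1| + |x 2 - (1 / 2) * 0| ≤ s - 1 / 2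
    have h := key (x 1) (|x 0| + |x 2|) (by positivity)
    simp only [sub_zero, mul_zero, mul_one]
    constructor
    · rintro ⟨h1, h2⟩
      have := h.mp ⟨by linarith, by linarith⟩
      linarith
    · intro h1
      have := h.mpr (by linarith)
      exact ⟨by linarith [this.1], by linarith [this.2]⟩
  · show (|x 0 - 0| + |x 1 - -1| + |x 2 - 0| ≤ s ∧ |x 0 - 0| + |x 1 - 0| + |x 2 - 0| ≤ s) ↔
      |x 0 - (1 / 2) * 0| + |x 1 - (1 / 2) * -1| + |x 2 - (1 / 2) * 0| ≤ s - 1 / 2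
    have h := key' (x 1) (|x 0| + |x 2|) (by positivity)
    simp only [sub_zero, mul_zero, mul_neg, mul_one, sub_neg_eq_add]
    constructor
    · rintro ⟨h1, h2⟩
      have := h.mp ⟨by linarith, by linarith⟩
      linarith
    · intro h1
      have := h.mpr (by linarith)
      exact ⟨by linarith [this.1], by linarith [this.2]⟩
  · show (|x 0 - 0| + |x 1 - 0| + |x 2 - 1| ≤ s ∧ |x 0 - 0| + |x 1 - 0| + |x 2 - 0| ≤ s) ↔
      |x 0 - (1 / 2) * 0| + |x 1 - (1 / 2) * 0| + |x 2 - (1 / 2) * 1| ≤ s - 1 / 2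
    have h := key (x 2) (|x 0| + |x 1|) (by positivity)
    simp only [sub_zero, mul_zero, mul_one]
    constructor
    · rintro ⟨h1, h2⟩
      have := h.mp ⟨by linarith, by linarith⟩
      linarith
    · intro h1
      have := h.mpr (by linarith)
      exact ⟨by linarith [this.1], by linarith [this.2]⟩
  · show (|x 0 - 0| + |x 1 - 0| + |x 2 - -1| ≤ s ∧ |x 0 - 0| + |x 1 - 0| + |x 2 - 0| ≤ s) ↔
      |x 0 - (1 / 2) * 0| + |x 1 - (1 / 2) * 0| + |x 2 - (1 / 2) * -1| ≤ s - 1 / 2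
    have h := key' (x 2) (|x 0| + |x 1|) (by positivity)
    simp only [sub_zero, mul_zero, mul_neg, mul_one, sub_neg_eq_add]
    constructor
    · rintro ⟨h1, h2⟩
      have := h.mp ⟨by linarith, by linarith⟩
      linarith
    · intro h1
      have := h.mpr (by linarith)
      exact ⟨by linarith [this.1], by linarith [this.2]⟩

/-- the thin set containing all overlaps -/
def Zc (c : Fin 3) (δ : ℝ) : Set (Fin 3 → ℝ) :=
  {x | |x c| ≤ δ ∧ |(|x (c.succAbove 0)| - |x (c.succAbove 1)|)| ≤ δ ∧ |x (c.succAbove 0)| ≤ 3}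

theorem vol_Zc (c : Fin 3) {δ : ℝ} (hδ : 0 ≤ δ) : volume (Zc c δ) ≤ ENNReal.ofReal (48 * δ ^ 2) := by
  set W : Set (ℝ × ℝ) := {w | |(|w.1| - |w.2|)| ≤ δ ∧ |w.1| ≤ 3} with hW
  have hWm : MeasurableSet W := by
    have m1 : Measurable fun w : ℝ × ℝ => |(|w.1| - |w.2|)| := by fun_prop
    have m2 : Measurable fun w : ℝ × ℝ => |w.1| := by fun_prop
    exact (measurableSet_le m1 measurable_const).inter (measurableSet_le m2 measurable_const)
  have hWv : volume W ≤ ENNReal.ofReal (24 * δ) := by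
    rw [Measure.volume_eq_prod, Measure.prod_apply hWm]
    have h1 : ∀ a : ℝ, volume (Prod.mk a ⁻¹' W) ≤
        (Icc (-3 : ℝ) 3).indicator (fun _ => ENNReal.ofReal (4 * δ)) a := by
      intro a
      by_cases ha : a ∈ Icc (-3 : ℝ) 3
      · rw [indicator_of_mem ha]
        have h2 : Prod.mk a ⁻¹' W ⊆ Icc (|a| - δ) (|a| + δ) ∪ Icc (-|a| - δ) (-|a| + δ) := by
          intro w hw
          have h3 := (abs_le.mp hw.1)
          simp only at h3
          rcases abs_cases w with h4 | h4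
          · left; constructor <;> linarith
          · right; constructor <;> linarith
        refine (measure_mono h2).trans ((measure_union_le _ _).trans ?_)
        rw [Real.volume_Icc, Real.volume_Icc, ← ENNReal.ofReal_add (by linarith) (by linarith)]
        apply ENNReal.ofReal_le_ofReal
        linarith
      · rw [indicator_of_notMem ha]
        have h2 : Prod.mk a ⁻¹' W = ∅ := by
          ext w
          simp only [mem_preimage, mem_empty_iff_false, iff_false]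
          intro hw
          exact ha (abs_le.mp hw.2)
        rw [h2, measure_empty]
    refine (lintegral_mono h1).trans ?_
    rw [lintegral_indicator measurableSet_Icc, setLIntegral_const, Real.volume_Icc,
      ← ENNReal.ofReal_mul (by linarith)]
    apply ENNReal.ofReal_le_ofReal
    linarith
  have e1 := volume_preserving_piFinSuccAbove (fun _ : Fin 3 => ℝ) c
  have e2 := (MeasurePreserving.id (volume : Measure ℝ)).prod (volume_preserving_finTwoArrow ℝ)
  have e3 := e2.comp e1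
  have h1 : Zc c δ = (Prod.map id (MeasurableEquiv.finTwoArrow : (Fin 2 → ℝ) ≃ᵐ ℝ × ℝ) ∘
      (MeasurableEquiv.piFinSuccAbove (fun _ : Fin 3 => ℝ) c)) ⁻¹' (Icc (-δ) δ ×ˢ W) := by
    ext x
    simp only [Zc, mem_ofPred_eq, mem_preimage, mem_prod, Function.comp, Prod.map, hW, id, mem_Icc,
      ← abs_le]
    rfl
  rw [h1, e3.measure_preimage (measurableSet_Icc.prod hWm).nullMeasurableSet, Measure.prod_prod,
    Real.volume_Icc]
  calc ENNReal.ofReal (δ - -δ) * volume W ≤ ENNReal.ofReal (δ - -δ) * ENNReal.ofReal (24 * δ) := by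
        gcongr
    _ = ENNReal.ofReal (48 * δ ^ 2) := by
        rw [← ENNReal.ofReal_mul (by linarith)]
        congr 1
        ring

/-- the union of the thin sets -/
def Z (δ : ℝ) : Set (Fin 3 → ℝ) := Zc 0 δ ∪ Zc 1 δ ∪ Zc 2 δ

theorem vol_Z {δ : ℝ} (hδ : 0 ≤ δ) : volume (Z δ) ≤ ENNReal.ofReal (144 * δ ^ 2) := by
  refine (measure_union_le _ _).trans ?_
  have h1 : volume (Zc 0 δ ∪ Zc 1 δ) ≤ ENNReal.ofReal (48 * δ ^ 2) + ENNReal.ofReal (48 * δ ^ 2) :=
    (measure_union_le _ _).trans (add_le_add (vol_Zc 0 hδ) (vol_Zc 1 hδ))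
  refine (add_le_add h1 (vol_Zc 2 hδ)).trans ?_
  rw [← ENNReal.ofReal_add (by positivity) (by positivity),
    ← ENNReal.ofReal_add (by positivity) (by positivity)]
  apply ENNReal.ofReal_le_ofReal
  linarith

theorem Z_closed (δ : ℝ) : IsClosed (Z δ) := by
  have h : ∀ c : Fin 3, IsClosed (Zc c δ) := by
    intro c
    have c1 : Continuous fun x : Fin 3 → ℝ => |x c| := by fun_prop
    have c2 : Continuous fun x : Fin 3 → ℝ => |(|x (c.succAbove 0)| - |x (c.succAbove 1)|)| := by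
      fun_prop
    have c3 : Continuous fun x : Fin 3 → ℝ => |x (c.succAbove 0)| := by fun_prop
    exact (isClosed_le c1 continuous_const).inter
      ((isClosed_le c2 continuous_const).inter (isClosed_le c3 continuous_const))
  exact ((h 0).union (h 1)).union (h 2)

/-- Two different outer octahedra overlap only in the thin set. -/
theorem overlap {i j : Fin 6} (hij : i < j) {δ : ℝ} (hδ : δ ≤ 1) :
    O (vert i) (1 + δ) ∩ O (vert j) (1 + δ) ⊆ Z δ := by
  have l1 : ∀ u : ℝ, 1 - |u| ≤ |u - 1| := by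
    intro u
    have := abs_sub_abs_le_abs_sub 1 u
    rw [abs_one, abs_sub_comm] at this
    exact this
  have l2 : ∀ u : ℝ, 1 - |u| ≤ |u + 1| := by
    intro u
    have := l1 (-u)
    rwa [abs_neg, show -u - 1 = -(u + 1) by ring, abs_neg] at this
  have opp : ∀ u w : ℝ, |u - 1| + w ≤ 1 + δ → |u + 1| + w ≤ 1 + δ → |u| + w ≤ δ := by
    intro u w h1 h2
    rcases abs_cases (u - 1) with h | h <;> rcases abs_cases u with h' | h' <;>
        rcases abs_cases (u + 1) with h'' | h'' <;> linarith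
  rintro x ⟨hi, hj⟩
  have a0 := abs_nonneg (x 0)
  have a1 := abs_nonneg (x 1)
  have a2 := abs_nonneg (x 2)
  -- membership in the three pieces
  have z0 : |x 0| ≤ δ → |x 2| - |x 1| ≤ δ → |x 1| - |x 2| ≤ δ → |x 1| ≤ 3 → x ∈ Z δ := by
    intro h1 h2 h3 h4
    left; left
    refine ⟨h1, ?_, h4⟩
    show |(|x 1| - |x 2|)| ≤ δ
    rw [abs_le]
    exact ⟨by linarith, by linarith⟩
  have z1 : |x 1| ≤ δ → |x 2| - |x 0| ≤ δ → |x 0| - |x 2| ≤ δ → |x 0| ≤ 3 → x ∈ Z δ := by
    intro h1 h2 h3 h4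
    left; right
    refine ⟨h1, ?_, h4⟩
    show |(|x 0| - |x 2|)| ≤ δ
    rw [abs_le]
    exact ⟨by linarith, by linarith⟩
  have z2 : |x 2| ≤ δ → |x 1| - |x 0| ≤ δ → |x 0| - |x 1| ≤ δ → |x 0| ≤ 3 → x ∈ Z δ := by
    intro h1 h2 h3 h4
    right
    refine ⟨h1, ?_, h4⟩
    show |(|x 0| - |x 1|)| ≤ δ
    rw [abs_le]
    exact ⟨by linarith, by linarith⟩
  have m0 := l1 (x 0)
  have m1 := l1 (x 1)
  have m2 := l1 (x 2)
  have n0 := l2 (x 0)
  have n1 := l2 (x 1)
  have n2 := l2 (x 2)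
  have b0 : |x 0| ≤ |x 0 - 1| + 1 := by
    have := abs_sub_abs_le_abs_sub (x 0) 1
    rw [abs_one] at this; linarith
  have b0' : |x 0| ≤ |x 0 + 1| + 1 := by
    have := abs_sub_abs_le_abs_sub (x 0) (-1)
    rw [abs_neg, abs_one, sub_neg_eq_add] at this; linarith
  have b1 : |x 1| ≤ |x 1 - 1| + 1 := by
    have := abs_sub_abs_le_abs_sub (x 1) 1
    rw [abs_one] at this; linarith
  have b1' : |x 1| ≤ |x 1 + 1| + 1 := by
    have := abs_sub_abs_le_abs_sub (x 1) (-1)
    rw [abs_neg, abs_one, sub_neg_eq_add] at this; linarith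
  have v0 : x ∈ O (vert 0) (1 + δ) → |x 0 - 1| + |x 1| + |x 2| ≤ 1 + δ := by
    intro h
    have h' : |x 0 - 1| + |x 1 - 0| + |x 2 - 0| ≤ 1 + δ := h
    simpa using h'
  have v1 : x ∈ O (vert 1) (1 + δ) → |x 0 + 1| + |x 1| + |x 2| ≤ 1 + δ := by
    intro h
    have h' : |x 0 - -1| + |x 1 - 0| + |x 2 - 0| ≤ 1 + δ := h
    simpa using h'
  have v2 : x ∈ O (vert 2) (1 + δ) → |x 0| + |x 1 - 1| + |x 2| ≤ 1 + δ := by
    intro h
    have h' : |x 0 - 0| + |x 1 - 1| + |x 2 - 0| ≤ 1 + δ := h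
    simpa using h'
  have v3 : x ∈ O (vert 3) (1 + δ) → |x 0| + |x 1 + 1| + |x 2| ≤ 1 + δ := by
    intro h
    have h' : |x 0 - 0| + |x 1 - -1| + |x 2 - 0| ≤ 1 + δ := h
    simpa using h'
  have v4 : x ∈ O (vert 4) (1 + δ) → |x 0| + |x 1| + |x 2 - 1| ≤ 1 + δ := by
    intro h
    have h' : |x 0 - 0| + |x 1 - 0| + |x 2 - 1| ≤ 1 + δ := h
    simpa using h'
  have v5 : x ∈ O (vert 5) (1 + δ) → |x 0| + |x 1| + |x 2 + 1| ≤ 1 + δ := by
    intro h
    have h' : |x 0 - 0| + |x 1 - 0| + |x 2 - -1| ≤ 1 + δ := h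
    simpa using h'
  have k01 : x ∈ O (vert 0) (1 + δ) → x ∈ O (vert 1) (1 + δ) → x ∈ Z δ := by
    intro h h'
    have := opp (x 0) (|x 1| + |x 2|) (by linarith [v0 h]) (by linarith [v1 h'])
    exact z1 (by linarith) (by linarith) (by linarith) (by linarith)
  have k23 : x ∈ O (vert 2) (1 + δ) → x ∈ O (vert 3) (1 + δ) → x ∈ Z δ := by
    intro h h'
    have := opp (x 1) (|x 0| + |x 2|) (by linarith [v2 h]) (by linarith [v3 h'])
    exact z1 (by linarith) (by linarith) (by linarith) (by linarith)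
  have k45 : x ∈ O (vert 4) (1 + δ) → x ∈ O (vert 5) (1 + δ) → x ∈ Z δ := by
    intro h h'
    have := opp (x 2) (|x 0| + |x 1|) (by linarith [v4 h]) (by linarith [v5 h'])
    exact z1 (by linarith) (by linarith) (by linarith) (by linarith)
  have x0or : (x ∈ O (vert 0) (1 + δ) ∨ x ∈ O (vert 1) (1 + δ)) →
      |x 1| + |x 2| ≤ |x 0| + δ ∧ |x 0| ≤ 3 := by
    rintro (h | h)
    · have := v0 h; exact ⟨by linarith, by linarith⟩
    · have := v1 h; exact ⟨by linarith, by linarith⟩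
  have x1or : (x ∈ O (vert 2) (1 + δ) ∨ x ∈ O (vert 3) (1 + δ)) →
      |x 0| + |x 2| ≤ |x 1| + δ ∧ |x 1| ≤ 3 := by
    rintro (h | h)
    · have := v2 h; exact ⟨by linarith, by linarith⟩
    · have := v3 h; exact ⟨by linarith, by linarith⟩
  have x2or : (x ∈ O (vert 4) (1 + δ) ∨ x ∈ O (vert 5) (1 + δ)) →
      |x 0| + |x 1| ≤ |x 2| + δ := by
    rintro (h | h)
    · have := v4 h; linarith
    · have := v5 h; linarith
  have k0 : (x ∈ O (vert 0) (1 + δ) ∨ x ∈ O (vert 1) (1 + δ)) →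
      (x ∈ O (vert 2) (1 + δ) ∨ x ∈ O (vert 3) (1 + δ)) → x ∈ Z δ := by
    intro h h'
    have h1 := x0or h
    have h2 := x1or h'
    exact z2 (by linarith [h1.1, h2.1]) (by linarith [h1.1]) (by linarith [h2.1]) h1.2
  have k1 : (x ∈ O (vert 0) (1 + δ) ∨ x ∈ O (vert 1) (1 + δ)) →
      (x ∈ O (vert 4) (1 + δ) ∨ x ∈ O (vert 5) (1 + δ)) → x ∈ Z δ := by
    intro h h'
    have h1 := x0or h
    have h2 := x2or h'
    exact z1 (by linarith [h1.1]) (by linarith [h1.1]) (by linarith) h1.2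
  have k2 : (x ∈ O (vert 2) (1 + δ) ∨ x ∈ O (vert 3) (1 + δ)) →
      (x ∈ O (vert 4) (1 + δ) ∨ x ∈ O (vert 5) (1 + δ)) → x ∈ Z δ := by
    intro h h'
    have h1 := x1or h
    have h2 := x2or h'
    exact z0 (by linarith [h1.1]) (by linarith [h1.1]) (by linarith) h1.2
  fin_cases i <;> fin_cases j
  all_goals first
    | exact absurd hij (by decide)
    | exact k01 hi hj
    | exact k23 hi hj
    | exact k45 hi hj
    | exact k0 (Or.inl hi) (Or.inl hj)
    | exact k0 (Or.inl hi) (Or.inr hj)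
    | exact k0 (Or.inr hi) (Or.inl hj)
    | exact k0 (Or.inr hi) (Or.inr hj)
    | exact k1 (Or.inl hi) (Or.inl hj)
    | exact k1 (Or.inl hi) (Or.inr hj)
    | exact k1 (Or.inr hi) (Or.inl hj)
    | exact k1 (Or.inr hi) (Or.inr hj)
    | exact k2 (Or.inl hi) (Or.inl hj)
    | exact k2 (Or.inl hi) (Or.inr hj)
    | exact k2 (Or.inr hi) (Or.inl hj)
    | exact k2 (Or.inr hi) (Or.inr hj)

/-- the union of the seven octahedra of size `s` -/
def Un (s : ℝ) : Set (Fin 3 → ℝ) := O 0 s ∪ ⋃ i, O (vert i) s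

/-- the main term -/
noncomputable def F (s : ℝ) : ℝ := 28 / 3 * s ^ 3 - 8 * (s - 1 / 2) ^ 3

theorem vol_diff (i : Fin 6) {s : ℝ} (hs : 1 / 2 ≤ s) :
    volume (O (vert i) s \ O 0 s) = ENNReal.ofReal (4 / 3 * s ^ 3 - 4 / 3 * (s - 1 / 2) ^ 3) := by
  have h1 : O (vert i) s \ O 0 s = O (vert i) s \ (O (vert i) s ∩ O 0 s) := by
    rw [sdiff_self_inter]
  rw [h1, measure_sdiff inter_subset_left
    ((O_closed _ _).inter (O_closed _ _)).measurableSet.nullMeasurableSet, O_inter,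
    vol_O _ (by linarith), vol_O _ (by linarith), ← ENNReal.ofReal_sub _ (by
      have : 0 ≤ s - 1 / 2 := by linarith
      positivity)]
  rw [O_inter, vol_O _ (by linarith)]
  exact ENNReal.ofReal_ne_top

theorem vol_Un_le {s : ℝ} (hs : 1 / 2 ≤ s) : (volume (Un s)).toReal ≤ F s := by
  have h0 : 0 ≤ s - 1 / 2 := by linarith
  have hmono : (s - 1 / 2) ^ 3 ≤ s ^ 3 := by
    apply pow_le_pow_left₀ h0; linarith
  have h1 : Un s = O 0 s ∪ ⋃ i, (O (vert i) s \ O 0 s) := by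
    unfold Un
    ext x
    simp only [mem_union, mem_iUnion, Set.mem_sdiff]
    constructor
    · rintro (h | ⟨i, h⟩)
      · left; exact h
      · by_cases hx : x ∈ O 0 s
        · left; exact hx
        · right; exact ⟨i, h, hx⟩
    · rintro (h | ⟨i, h, _⟩)
      · left; exact h
      · right; exact ⟨i, h⟩
  have h2 : volume (Un s) ≤ ENNReal.ofReal (F s) := by
    rw [h1]
    refine (measure_union_le _ _).trans ?_
    refine (add_le_add le_rfl (measure_iUnion_fintype_le _ _)).trans ?_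
    simp_rw [vol_diff _ hs]
    rw [vol_O _ (by linarith), Finset.sum_const, Finset.card_univ, Fintype.card_fin, nsmul_eq_mul]
    rw [show ((6 : ℕ) : ℝ≥0∞) = ENNReal.ofReal 6 by simp, ← ENNReal.ofReal_mul (by norm_num),
      ← ENNReal.ofReal_add (by positivity) (by nlinarith)]
    apply ENNReal.ofReal_le_ofReal
    unfold F
    linarith
  refine (ENNReal.toReal_mono ENNReal.ofReal_ne_top h2).trans ?_
  rw [ENNReal.toReal_ofReal]
  unfold F
  nlinarith

theorem le_vol_Un {δ : ℝ} (hδ : 0 ≤ δ) (hδ1 : δ ≤ 1) :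
    F (1 + δ) - 864 * δ ^ 2 ≤ (volume (Un (1 + δ))).toReal := by
  set s := 1 + δ with hs
  have hs1 : 1 ≤ s := by linarith
  have hfin : volume (Un s) ≠ ⊤ := by
    have h1 : volume (Un s) ≤ volume (O 0 s) + ∑ i, volume (O (vert i) s) :=
      (measure_union_le _ _).trans (add_le_add le_rfl (measure_iUnion_fintype_le _ _))
    refine ne_top_of_le_ne_top ?_ h1
    simp_rw [vol_O _ (by linarith : (0:ℝ) ≤ s)]
    simp
    exact ENNReal.mul_ne_top (by simp) ENNReal.ofReal_ne_top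
  set C : Fin 6 → Set (Fin 3 → ℝ) := fun i => (O (vert i) s \ O 0 s) \ Z δ with hC
  have hCm : ∀ i, MeasurableSet (C i) := fun i =>
    (((O_closed _ _).measurableSet.diff (O_closed _ _).measurableSet)).diff (Z_closed δ).measurableSet
  have hsub : O 0 s ∪ ⋃ i, C i ⊆ Un s := by
    apply union_subset_union_right
    apply iUnion_mono
    intro i x hx
    exact hx.1.1
  have hdis : Pairwise (Function.onFun Disjoint C) := by
    intro i j hij
    rw [Function.onFun, Set.disjoint_left]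
    intro x hx hx'
    rcases lt_or_gt_of_ne hij with h | h
    · exact hx.2 (overlap h hδ1 ⟨hx.1.1, hx'.1.1⟩)
    · exact hx.2 (overlap h hδ1 ⟨hx'.1.1, hx.1.1⟩)
  have hdis0 : Disjoint (O 0 s) (⋃ i, C i) := by
    rw [Set.disjoint_left]
    intro x hx hx'
    obtain ⟨i, hi⟩ := mem_iUnion.mp hx'
    exact hi.1.2 hx
  have h2 : volume (O 0 s ∪ ⋃ i, C i) = volume (O 0 s) + ∑ i, volume (C i) := by
    rw [measure_union hdis0 (MeasurableSet.iUnion hCm), measure_iUnion hdis hCm, tsum_fintype]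
  have h3 : ∀ i, ENNReal.ofReal (4 / 3 * s ^ 3 - 4 / 3 * (s - 1 / 2) ^ 3 - 144 * δ ^ 2) ≤
      volume (C i) := by
    intro i
    rw [ENNReal.ofReal_sub _ (by positivity), tsub_le_iff_right, ← vol_diff i (by linarith)]
    calc volume (O (vert i) s \ O 0 s) ≤ volume (C i ∪ Z δ) := by
          apply measure_mono
          intro x hx
          by_cases hxz : x ∈ Z δ
          · right; exact hxz
          · left; exact ⟨hx, hxz⟩
      _ ≤ volume (C i) + volume (Z δ) := measure_union_le _ _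
      _ ≤ volume (C i) + ENNReal.ofReal (144 * δ ^ 2) := by gcongr; exact vol_Z hδ
  have h4 : ENNReal.ofReal (F s - 864 * δ ^ 2) ≤ volume (Un s) := by
    refine le_trans ?_ (measure_mono hsub)
    rw [h2, vol_O _ (by linarith)]
    have h5 : ENNReal.ofReal (4 / 3 * s ^ 3) +
        ∑ _i : Fin 6, ENNReal.ofReal (4 / 3 * s ^ 3 - 4 / 3 * (s - 1 / 2) ^ 3 - 144 * δ ^ 2) ≤
        ENNReal.ofReal (4 / 3 * s ^ 3) + ∑ i, volume (C i) := by
      gcongr with i
      exact h3 i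
    refine le_trans ?_ h5
    rw [Finset.sum_const, Finset.card_univ, Fintype.card_fin, nsmul_eq_mul,
      show ((6 : ℕ) : ℝ≥0∞) = ENNReal.ofReal 6 by simp, ← ENNReal.ofReal_mul (by norm_num)]
    refine le_trans ?_ ENNReal.ofReal_add_le
    apply ENNReal.ofReal_le_ofReal
    unfold F
    linarith
  have h6 := ENNReal.toReal_mono hfin h4
  refine le_trans ?_ h6
  rw [ENNReal.toReal_ofReal']
  exact le_max_left _ _

/-- the seven centres -/
def A : Set (Fin 3 → ℝ) := insert 0 (range vert)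

theorem oct_eq : oct = O 0 1 := by
  ext x
  show N1 x ≤ 1 ↔ N1 (x - 0) ≤ 1
  rw [sub_zero]

theorem A_add : A + (1 : ℝ) • oct = Un 1 := by
  rw [one_smul]
  ext x
  constructor
  · rintro ⟨a, ha, k, hk, rfl⟩
    have hk' : N1 k ≤ 1 := hk
    rcases ha with rfl | ⟨i, rfl⟩
    · left
      show N1 (0 + k - 0) ≤ 1
      rwa [zero_add, sub_zero]
    · right
      rw [mem_iUnion]
      refine ⟨i, ?_⟩
      show N1 (vert i + k - vert i) ≤ 1
      rwa [add_sub_cancel_left]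
  · rintro (h | h)
    · exact ⟨0, mem_insert _ _, x, by rw [oct_eq]; exact h, zero_add x⟩
    · obtain ⟨i, hi⟩ := mem_iUnion.mp h
      exact ⟨vert i, mem_insert_of_mem _ ⟨i, rfl⟩, x - vert i, hi, by simp⟩

theorem Un_add {s δ : ℝ} (hs : 0 < s) (hδ : 0 < δ) : Un s + δ • oct = Un (s + δ) := by
  unfold Un
  rw [union_add, iUnion_add, O_add 0 hs hδ]
  congr 1
  apply iUnion_congr
  intro i
  exact O_add _ hs hδ

theorem area_union : HasKArea oct (A + (1 : ℝ) • oct) 22 := by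
  unfold HasKArea
  rw [A_add]
  have hF1 : F 1 = 25 / 3 := by unfold F; norm_num
  have h1 : (volume (Un 1)).toReal = 25 / 3 := by
    apply le_antisymm
    · rw [← hF1]; exact vol_Un_le (by norm_num)
    · have := le_vol_Un (le_refl (0:ℝ)) zero_le_one
      rw [add_zero, hF1] at this
      linarith
  have hpoly : ∀ δ : ℝ, F (1 + δ) - 25 / 3 = δ * (22 + 16 * δ + 4 / 3 * δ ^ 2) := by
    intro δ
    unfold F
    ring
  have hlow : Tendsto (fun δ : ℝ => 22 + 16 * δ + 4 / 3 * δ ^ 2 - 864 * δ) (𝓝[>] 0) (𝓝 22) := by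
    have : Continuous fun δ : ℝ => 22 + 16 * δ + 4 / 3 * δ ^ 2 - 864 * δ := by fun_prop
    have h2 := this.tendsto 0
    norm_num at h2
    exact h2.mono_left nhdsWithin_le_nhds
  have hupp : Tendsto (fun δ : ℝ => 22 + 16 * δ + 4 / 3 * δ ^ 2) (𝓝[>] 0) (𝓝 22) := by
    have : Continuous fun δ : ℝ => 22 + 16 * δ + 4 / 3 * δ ^ 2 := by fun_prop
    have h2 := this.tendsto 0
    norm_num at h2
    exact h2.mono_left nhdsWithin_le_nhds
  have hI : Ioo (0 : ℝ) 1 ∈ 𝓝[>] (0 : ℝ) := Ioo_mem_nhdsGT one_pos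
  apply tendsto_of_tendsto_of_tendsto_of_le_of_le' hlow hupp
  · filter_upwards [hI] with δ hδ
    rw [Un_add one_pos hδ.1, h1, le_div_iff₀ hδ.1]
    have h3 := le_vol_Un hδ.1.le hδ.2.le
    have h4 := hpoly δ
    nlinarith
  · filter_upwards [hI] with δ hδ
    rw [Un_add one_pos hδ.1, h1, div_le_iff₀ hδ.1]
    have h3 := vol_Un_le (s := 1 + δ) (by linarith [hδ.1])
    have h4 := hpoly δ
    nlinarith

theorem at_eq {r : ℝ} (hr : 0 < r) : at' oct 0 0 r = O 0 r := by
  ext x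
  constructor
  · rintro ⟨k, hk, rfl⟩
    have hk' : N1 k ≤ 1 := hk
    show N1 (0 + r • (k - 0) - 0) ≤ r
    rw [zero_add, sub_zero, sub_zero, N1_smul, abs_of_pos hr]
    nlinarith
  · intro hx
    have hx' : N1 (x - 0) ≤ r := hx
    rw [sub_zero] at hx'
    refine ⟨r⁻¹ • x, ?_, ?_⟩
    · show N1 (r⁻¹ • x) ≤ 1
      rw [N1_smul, abs_of_pos (inv_pos.mpr hr), inv_mul_le_iff₀ hr, mul_one]
      exact hx'
    · simp only
      rw [sub_zero, zero_add, smul_smul, mul_inv_cancel₀ hr.ne', one_smul]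

theorem area_double : HasKArea oct (at' oct 0 0 (2 * 1)) 16 := by
  unfold HasKArea
  rw [at_eq (by norm_num)]
  have hlim : Tendsto (fun δ : ℝ => 16 + 8 * δ + 4 / 3 * δ ^ 2) (𝓝[>] 0) (𝓝 16) := by
    have : Continuous fun δ : ℝ => 16 + 8 * δ + 4 / 3 * δ ^ 2 := by fun_prop
    have h2 := this.tendsto 0
    norm_num at h2
    exact h2.mono_left nhdsWithin_le_nhds
  refine hlim.congr' ?_
  filter_upwards [self_mem_nhdsWithin] with δ hδ
  have hδ' : 0 < δ := hδ
  rw [O_add 0 (by norm_num) hδ', vol_O _ (by linarith), vol_O _ (by norm_num),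
    ENNReal.toReal_ofReal (by positivity), ENNReal.toReal_ofReal (by norm_num)]
  field_simp
  ring

theorem symConv_oct : SymConv oct 0 := by
  refine ⟨?_, ?_, ?_, ?_⟩
  · rw [isBounded_iff_forall_norm_le]
    refine ⟨1, fun x hx => ?_⟩
    rw [pi_norm_le_iff_of_nonneg zero_le_one]
    have hx' : |x 0| + |x 1| + |x 2| ≤ 1 := hx
    intro i
    rw [Real.norm_eq_abs]
    fin_cases i
    · show |x 0| ≤ 1
      linarith [abs_nonneg (x 1), abs_nonneg (x 2)]
    · show |x 1| ≤ 1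
      linarith [abs_nonneg (x 0), abs_nonneg (x 2)]
    · show |x 2| ≤ 1
      linarith [abs_nonneg (x 0), abs_nonneg (x 1)]
  · intro x hx y hy a b ha hb hab
    show N1 (a • x + b • y) ≤ 1
    have hx' : N1 x ≤ 1 := hx
    have hy' : N1 y ≤ 1 := hy
    have h1 := N1_add (a • x) (b • y)
    rw [N1_smul, N1_smul, abs_of_nonneg ha, abs_of_nonneg hb] at h1
    nlinarith
  · show N1 0 ≤ 1
    simp [N1]
  · intro x hx
    show N1 ((2 : ℝ) • (0 : Fin 3 → ℝ) - x) ≤ 1
    rw [smul_zero, zero_sub]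
    have : N1 (-x) = N1 x := by simp [N1]
    rw [this]
    exact hx

theorem vert_mem (i : Fin 6) : vert i ∈ at' oct 0 0 1 := by
  rw [at_eq one_pos]
  show N1 (vert i - 0) ≤ 1
  rw [sub_zero]
  fin_cases i <;> simp [N1, vert]

/-- **Counterexample.** -/
theorem result :
    SymConv oct 0 ∧ (∀ i, vert i ∈ at' oct 0 0 1) ∧
      HasKArea oct (insert 0 (range vert) + (1 : ℝ) • oct) 22 ∧
      HasKArea oct (at' oct 0 0 (2 * 1)) 16 ∧ ¬ Q1 := by
  refine ⟨symConv_oct, vert_mem, area_union, area_double, ?_⟩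
  intro h
  have := h 3 (by norm_num) oct 0 symConv_oct 1 one_pos 0 6 (by norm_num) vert vert_mem 22 16
    area_union area_double
  norm_num at this

end Pool.Agent.Results.MP_a80f1a_gt.Octahedron
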